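import Pool.Agent.H33.G.R_seed8.H319R3.LV.LV1
import Pool.Agent.H33.G.R_seed8.H499R2.NDEqui

/-! Level of distribution: mixing and equidistribution mod `3^m`, `m ≤ c log A`, odd integers. -/

set_option autoImplicit false
set_option linter.unusedVariables false

namespace Pool.Agent.H319R3.LV

open Pool.Agent.H320R2.PD Pool.Agent.H499R2.ND Finset

/-- total variation of the offsets of `k` letters above the digit `m'`, up to the digit `k + c k` -/
theorem mix_lin (B : ℕ) : ∃ C : ℝ, 0 < C ∧ ∃ c : ℝ, 0 < c ∧ c ≤ 1 / 400 ∧ ∀ k m m' A : ℕ,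
    1 ≤ k → 1 ≤ m' → m' ≤ k → (m : ℝ) ≤ c * k → 3 * k ≤ A →
    ∑ T ∈ range (k * A + 1), dev (FWT A k T) wwt (fun w => (Wo w : ℤ)) (k + m) m'
      ≤ (k + m) * (C * (1 / (m' : ℝ)) ^ B) := by
  obtain ⟨C, hC, c, hc, hc1, hg⟩ := gam_all_lin (2 * B)
  refine ⟨Real.sqrt (2 * C), by positivity, c, hc, hc1, fun k m m' A hk hm' hmk hm hA => ?_⟩
  have hnn : ∀ T, ∀ w ∈ FWT A k T, 0 ≤ wwt w := fun T w _ => by unfold wwt; positivity
  have hmass : ∑ T ∈ range (k * A + 1), ∑ w ∈ FWT A k T, wwt w ≤ 1 := by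
    unfold FWT
    rw [sum_fiberwise_of_maps_to (g := fun w : List ℕ => w.sum)]
    · exact sum_wwt_le A k
    · intro w hw
      have := (sum_le_of_mem hw).2
      simp only [mem_range]
      omega
  have hkR : (0 : ℝ) < k := by exact_mod_cast hk
  have hm'R : (0 : ℝ) < m' := by exact_mod_cast hm'
  calc ∑ T ∈ range (k * A + 1), dev (FWT A k T) wwt (fun w => (Wo w : ℤ)) (k + m) m'
      ≤ ∑ T ∈ range (k * A + 1), ∑ J ∈ Ico m' (k + m), Real.sqrt (2 * ∑ i ∈ FWT A k T, wwt i)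
          * Real.sqrt (Gam (FWT A k T) wwt (fun w => (Wo w : ℤ)) J) :=
        sum_le_sum fun T _ => dev_le _ (hnn T) m' (k + m) (by omega)
    _ = ∑ J ∈ Ico m' (k + m), ∑ T ∈ range (k * A + 1), Real.sqrt (2 * ∑ i ∈ FWT A k T, wwt i)
          * Real.sqrt (Gam (FWT A k T) wwt (fun w => (Wo w : ℤ)) J) := sum_comm
    _ ≤ ∑ J ∈ Ico m' (k + m), Real.sqrt 2 * Real.sqrt (gam A k J) := by
        apply sum_le_sum
        intro J _
        refine (Real.sum_sqrt_mul_sqrt_le (range (k * A + 1))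
          (f := fun T => 2 * ∑ i ∈ FWT A k T, wwt i)
          (g := fun T => Gam (FWT A k T) wwt (fun w => (Wo w : ℤ)) J) ?_ ?_).trans ?_
        · intro T
          have := sum_nonneg (hnn T)
          positivity
        · intro T; exact Gam_nonneg _ J (hnn T)
        · apply mul_le_mul_of_nonneg_right _ (Real.sqrt_nonneg _)
          apply Real.sqrt_le_sqrt
          rw [← mul_sum]
          linarith
    _ ≤ ∑ J ∈ Ico m' (k + m), Real.sqrt (2 * C) * (1 / (m' : ℝ)) ^ B := by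
        apply sum_le_sum
        intro J hJ
        rw [mem_Ico] at hJ
        have h1 := hg k m m' A J hk hm' hmk hm hA hJ.1 hJ.2
        rw [← Real.sqrt_mul (by norm_num)]
        calc Real.sqrt (2 * gam A k J)
            ≤ Real.sqrt (2 * (C * (1 / (m' : ℝ)) ^ (2 * B))) :=
              Real.sqrt_le_sqrt (by linarith)
          _ = Real.sqrt (2 * C) * Real.sqrt ((1 / (m' : ℝ)) ^ (2 * B)) := by
              rw [← Real.sqrt_mul (by positivity)]; ring_nf
          _ = Real.sqrt (2 * C) * (1 / (m' : ℝ)) ^ B := by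
              congr 1
              rw [mul_comm 2 B, pow_mul, Real.sqrt_sq (by positivity)]
    _ ≤ _ := by
        rw [sum_const, nsmul_eq_mul, Nat.card_Ico]
        have h1 : (((k + m - m' : ℕ) : ℝ)) ≤ k + m := by
          have : k + m - m' ≤ k + m := Nat.sub_le _ _
          exact_mod_cast this
        have h2 : 0 ≤ Real.sqrt (2 * C) * (1 / (m' : ℝ)) ^ B := by positivity
        exact mul_le_mul_of_nonneg_right h1 h2

theorem pow_m_le_lin {t : ℝ} (ht : 0 ≤ t) {m : ℕ} (hm : (m : ℝ) ≤ t / 1000) :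
    (3 : ℝ) ^ m ≤ Real.exp (0.05 * t) := by
  have h2 : (3 : ℝ) ^ m = Real.exp (Real.log 3 * m) := by
    rw [mul_comm (Real.log 3), Real.exp_nat_mul, Real.exp_log (by norm_num)]
  rw [h2]
  apply Real.exp_le_exp.2
  have h3 := log3_le
  have h4 := Real.log_two_lt_d9
  have h5 : Real.log 3 ≤ 1.2 := by linarith
  have h7 : 0 ≤ (m : ℝ) := Nat.cast_nonneg m
  nlinarith

theorem err_lin (B : ℕ) (d : ℤ) : ∃ C : ℝ, 0 < C ∧ ∃ c : ℝ, 0 < c ∧ c ≤ 1 / 1000 ∧
    ∀ A : ℝ, 0 < A → 1000 ≤ Real.log A → ∀ k m m' : ℕ,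
    (m : ℝ) ≤ c * Real.log A → k = ⌊Real.log A / 2⌋₊ → m' = ⌊Real.sqrt (0.8 * Real.log A)⌋₊ →
    Err d A k m m' ≤ C / (Real.log A) ^ B := by
  obtain ⟨Cm, hCm, cm, hcm, hcm1, hmix⟩ := mix_lin (2 * B + 2)
  refine ⟨2 * (Cm * (2 ^ (2 * B + 2))) + 4 * (B.factorial * 25600 ^ B)
    + (|(d : ℝ)| + 3) * 2 * (B.factorial * 5 ^ B), by positivity, cm * (2 / 5), by positivity,
      by linarith, ?_⟩
  intro A hA ht k m m' hm hk hm'
  set t := Real.log A with htdef
  have htpos : 0 < t := by linarith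
  have hexpA : Real.exp t = A := Real.exp_log hA
  have hk1 : (k : ℝ) ≤ t / 2 := by rw [hk]; exact Nat.floor_le (by linarith)
  have hk2 : t / 2 - 1 ≤ k := by rw [hk]; linarith [Nat.lt_floor_add_one (t / 2)]
  have hkpos : (1 : ℝ) ≤ k := by linarith
  have hk1N : 1 ≤ k := by exact_mod_cast hkpos
  have hmk : (m : ℝ) ≤ cm * k := by
    have : cm * (2 / 5) * t ≤ cm * k := by
      rw [mul_assoc]
      apply mul_le_mul_of_nonneg_left _ hcm.le
      linarith
    linarith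
  have hmt : (m : ℝ) ≤ t / 1000 := by
    have : cm * (2 / 5) * t ≤ t / 1000 := by nlinarith
    linarith
  set r := Real.sqrt t with hr
  have hrsq : r ^ 2 = t := Real.sq_sqrt htpos.le
  have hr30 : 30 ≤ r := by
    apply Real.le_sqrt_of_sq_le; linarith
  have hs8 : Real.sqrt (0.8 * t) ≥ 0.8 * r := by
    apply Real.le_sqrt_of_sq_le
    rw [mul_pow, hrsq]; linarith
  have hs8' : Real.sqrt (0.8 * t) ≤ r := Real.sqrt_le_sqrt (by linarith)
  have hm'1 : r / 2 ≤ m' := by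
    rw [hm']; linarith [Nat.lt_floor_add_one (Real.sqrt (0.8 * t))]
  have hm'2 : (m' : ℝ) ≤ r := by
    rw [hm']; exact (Nat.floor_le (Real.sqrt_nonneg _)).trans hs8'
  have hm'pos : 1 ≤ m' := by
    have : (1 : ℝ) ≤ m' := by linarith
    exact_mod_cast this
  have hm'k : m' ≤ k := by
    have : (m' : ℝ) ≤ k := by nlinarith
    exact_mod_cast this
  -- exponentially small quantities
  have hexp5 := exp_neg_le B (by norm_num : (0 : ℝ) < 5) htpos
  have hexpb := exp_neg_le B (by norm_num : (0 : ℝ) < 25600) htpos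
  have hsmall : (2 : ℝ) ^ (41 * k / 20) * (2 * 3 ^ m / A) ≤ 2 * Real.exp (-(t / 5)) := by
    have h1 := pow_tm_le htpos.le hk1
    have h2 := pow_m_le_lin htpos.le hmt
    have h3 : (2 : ℝ) ^ (41 * k / 20) * (2 * 3 ^ m / A)
        ≤ Real.exp (0.7106 * t) * (2 * Real.exp (0.05 * t) / Real.exp t) := by
      rw [← hexpA]
      apply mul_le_mul h1 _ (by positivity) (Real.exp_pos _).le
      apply div_le_div_of_nonneg_right _ (Real.exp_pos _).le
      linarith
    have h4 : Real.exp (0.7106 * t) * (2 * Real.exp (0.05 * t) / Real.exp t)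
        = 2 * Real.exp (0.7106 * t + 0.05 * t - t) := by
      rw [Real.exp_sub, Real.exp_add]; ring
    rw [h4] at h3
    refine h3.trans ?_
    apply mul_le_mul_of_nonneg_left _ (by norm_num)
    apply Real.exp_le_exp.2
    linarith
  have hexpsmall : Real.exp (-(t / 5)) ≤ 1 / 2 := by
    have h1 := Real.add_one_le_exp (t / 5)
    rw [Real.exp_neg, inv_eq_one_div]
    apply one_div_le_one_div_of_le (by norm_num)
    linarith
  have hsmall1 : (2 : ℝ) ^ (41 * k / 20) * (2 * 3 ^ m / A) ≤ 1 := by linarith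
  have h3mA : 0 ≤ (2 * 3 ^ m / A : ℝ) := by positivity
  have hone : (2 * 3 ^ m / A : ℝ) ≤ 2 * Real.exp (-(t / 5)) := by
    have : (1 : ℝ) ≤ 2 ^ (41 * k / 20) := one_le_pow₀ (by norm_num)
    nlinarith
  -- mixing
  have hδ := hmix k m m' (3 * k) hk1N hm'pos hm'k hmk (le_refl _)
  set δ := ∑ T ∈ range (k * (3 * k) + 1), dev (FWT (3 * k) k T) wwt (fun w => (Wo w : ℤ)) (k + m) m'
    with hδdef
  have hδnn : 0 ≤ δ := sum_nonneg fun _ _ => sum_nonneg fun _ _ => abs_nonneg _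
  have hrpos : 0 < r := by linarith
  have hδ2 : δ ≤ (Cm * (2 ^ (2 * B + 2))) / t ^ B := by
    have e1 : ((k : ℝ) + m) ≤ t := by linarith
    have e2 : (1 / (m' : ℝ)) ^ (2 * B + 2) ≤ (2 / r) ^ (2 * B + 2) := by
      apply pow_le_pow_left₀ (by positivity)
      rw [div_le_div_iff₀ (by exact_mod_cast hm'pos) hrpos]
      linarith
    have e4 : t * (Cm * ((2 / r) ^ (2 * B + 2)))
        = (Cm * (2 ^ (2 * B + 2))) / t ^ B := by
      have : r ^ (2 * B + 2) = t * t ^ B := by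
        rw [show 2 * B + 2 = 2 * (B + 1) by ring, pow_mul, hrsq, pow_succ]; ring
      rw [div_pow, this]
      field_simp
    calc δ ≤ (k + m) * (Cm * ((1 / (m' : ℝ)) ^ (2 * B + 2))) := hδ
      _ ≤ t * (Cm * ((2 / r) ^ (2 * B + 2))) := by
          apply mul_le_mul e1 _ (by positivity) htpos.le
          apply mul_le_mul_of_nonneg_left e2 hCm.le
      _ = _ := e4
  -- mass
  have hmass := mass_GW k
  have hmass2 : 3 * Real.exp (-(k / 12800 : ℝ)) ≤ 4 * Real.exp (-(t / 25600)) := by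
    have h1 : Real.exp (-(k / 12800 : ℝ)) ≤ Real.exp (1 / 12800) * Real.exp (-(t / 25600)) := by
      rw [← Real.exp_add]
      apply Real.exp_le_exp.2
      linarith
    have h2 : Real.exp (1 / 12800) ≤ 4 / 3 := by
      have := Real.exp_bound_div_one_sub_of_interval (x := 1 / 12800) (by norm_num) (by norm_num)
      refine this.trans (by norm_num)
    have h3 := Real.exp_pos (-(t / 25600))
    nlinarith
  unfold Err
  rw [← hδdef]
  have hd0 : 0 ≤ |(d : ℝ)| := abs_nonneg _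
  have f1 : (1 + 2 ^ (41 * k / 20) * (2 * 3 ^ m / A)) * δ ≤ 2 * δ :=
    mul_le_mul_of_nonneg_right (by linarith) hδnn
  have f2 : (1 + (|(d : ℝ)| + 2) * 2 ^ (41 * k / 20)) * (2 * 3 ^ m / A)
      ≤ (|(d : ℝ)| + 3) * (2 * Real.exp (-(t / 5))) := by
    calc (1 + (|(d : ℝ)| + 2) * 2 ^ (41 * k / 20)) * (2 * 3 ^ m / A)
        = (2 * 3 ^ m / A) + (|(d : ℝ)| + 2) * (2 ^ (41 * k / 20) * (2 * 3 ^ m / A)) := by ring
      _ ≤ 2 * Real.exp (-(t / 5)) + (|(d : ℝ)| + 2) * (2 * Real.exp (-(t / 5))) := by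
          have := mul_le_mul_of_nonneg_left hsmall (by linarith : 0 ≤ |(d : ℝ)| + 2)
          linarith
      _ = _ := by ring
  have f3 : (|(d : ℝ)| + 3) * (2 * Real.exp (-(t / 5)))
      ≤ (|(d : ℝ)| + 3) * (2 * ((B.factorial * 5 ^ B) / t ^ B)) := by
    apply mul_le_mul_of_nonneg_left _ (by linarith)
    linarith
  have f4 : 4 * Real.exp (-(t / 25600)) ≤ 4 * ((B.factorial * 25600 ^ B) / t ^ B) := by linarith
  calc (1 + 2 ^ (41 * k / 20) * (2 * 3 ^ m / A)) * δ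
      + (1 - ∑ w ∈ GW (3 * k) k ((39 * k + 19) / 20) (41 * k / 20), wwt w)
      + (1 + (|(d : ℝ)| + 2) * 2 ^ (41 * k / 20)) * (2 * 3 ^ m / A)
      ≤ 2 * ((Cm * (2 ^ (2 * B + 2))) / t ^ B)
        + 4 * ((B.factorial * 25600 ^ B) / t ^ B)
        + (|(d : ℝ)| + 3) * (2 * ((B.factorial * 5 ^ B) / t ^ B)) := by
        linarith
    _ = _ := by ring

/-- EQUIDISTRIBUTION of an invariant set in the classes mod `3^m` of odd integers of a window,
`m` up to a constant times `log A` -/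
theorem equi_odd_lin (B : ℕ) {d : ℤ} (hd : Odd d) (hd3 : IsCoprime d 3) : ∃ C : ℝ, 0 < C ∧
    ∃ c₀ : ℝ, 0 < c₀ ∧ c₀ ≤ 1 / 1000 ∧
    ∀ S : Set ℤ, Fwd d S → Fwd d Sᶜ → ∀ A : ℝ, 0 < A → 1000 ≤ Real.log A → ∀ m : ℕ,
      (m : ℝ) ≤ c₀ * Real.log A → ∀ c c' : ℤ,
      ((cls S A (2 * A) m 1 c).card : ℝ)
        ≤ (cls S A (2 * A) m 1 c').card + C / (Real.log A) ^ B * (A / (2 * 3 ^ m)) := by
  obtain ⟨C, hC, c₀, hc₀, hc₀1, herr⟩ := err_lin B d
  refine ⟨3 * C, by positivity, c₀, hc₀, hc₀1, ?_⟩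
  intro S hS hSc A hA ht m hm c c'
  set t := Real.log A with htdef
  obtain ⟨k, hk⟩ : ∃ k : ℕ, k = ⌊t / 2⌋₊ := ⟨_, rfl⟩
  obtain ⟨m', hm'⟩ : ∃ m' : ℕ, m' = ⌊Real.sqrt (0.8 * t)⌋₊ := ⟨_, rfl⟩
  have hk2 : t / 2 - 1 ≤ k := by rw [hk]; linarith [Nat.lt_floor_add_one (t / 2)]
  have hk1N : 1 ≤ k := by
    have : (1 : ℝ) ≤ k := by linarith
    exact_mod_cast this
  have hm'sq : (m' : ℝ) ^ 2 ≤ 0.8 * t := by
    have h1 : (m' : ℝ) ≤ Real.sqrt (0.8 * t) := by
      rw [hm']; exact Nat.floor_le (Real.sqrt_nonneg _)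
    calc (m' : ℝ) ^ 2 ≤ (Real.sqrt (0.8 * t)) ^ 2 :=
          pow_le_pow_left₀ (Nat.cast_nonneg _) h1 2
      _ = 0.8 * t := Real.sq_sqrt (by linarith)
  have hm'k : m' ≤ k := by
    have : (m' : ℝ) ≤ k := by
      have h0 : (0 : ℝ) ≤ m' := Nat.cast_nonneg _
      by_contra hcon
      push Not at hcon
      nlinarith
    exact_mod_cast this
  have hE := herr A hA ht k m m' hm hk hm'
  rw [← htdef] at hE
  have hY : 0 < A / (2 * 3 ^ m) := by positivity
  have h1 := star' hd hd3 hS hA hk1N hm'k (m := m) c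
  have h2 := star' hd hd3 hSc hA hk1N hm'k (m := m) c'
  have h3 := Mn_add d S hA (m := m) hm'k
  have h4 := cls_compl S A (2 * A) m 1 c'
  have h5 := le_cls_univ A (2 * A) m isCoprime_one_left c'
  rw [show 2 * A - A = A by ring] at h5
  have h6 : 1 + 2 ^ (41 * k / 20) ≤ Err d A k m m' * (A / (2 * 3 ^ m)) := by
    unfold Err
    set G := GW (3 * k) k ((39 * k + 19) / 20) (41 * k / 20) with hG
    set δ := ∑ T ∈ range (k * (3 * k) + 1), dev (FWT (3 * k) k T) wwt (fun w => (Wo w : ℤ)) (k + m) m'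
      with hδ
    set X := (2 : ℝ) ^ (41 * k / 20)
    set Y := A / (2 * 3 ^ m) with hYdef
    set Z := 2 * 3 ^ m / A with hZ
    set μ := ∑ w ∈ G, wwt w
    have hfac : Y * Z = 1 := by rw [hYdef, hZ]; field_simp
    have : ((1 + X * Z) * δ + (1 - μ) + (1 + (|(d : ℝ)| + 2) * X) * Z) * Y
        = (Y + X * (Y * Z)) * δ + Y * (1 - μ) + (1 + (|(d : ℝ)| + 2) * X) * (Y * Z) := by ring
    rw [this, hfac]
    have hX : 0 < X := by positivity
    have hδnn : 0 ≤ δ := sum_nonneg fun _ _ => sum_nonneg fun _ _ => abs_nonneg _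
    have hμ1 : μ ≤ 1 := by
      refine le_trans ?_ (sum_wwt_le (3 * k) k)
      show ∑ w ∈ GW (3 * k) k ((39 * k + 19) / 20) (41 * k / 20), wwt w ≤ _
      unfold GW
      apply sum_le_sum_of_subset_of_nonneg (filter_subset _ _)
      intro w _ _; unfold wwt; positivity
    have e1 : 0 ≤ (Y + X * 1) * δ := by positivity
    have e2 : 0 ≤ Y * (1 - μ) := mul_nonneg hY.le (by linarith)
    have e3 : 0 ≤ |(d : ℝ)| * X := by positivity
    nlinarith
  have h7 : Err d A k m m' * (A / (2 * 3 ^ m)) ≤ C / t ^ B * (A / (2 * 3 ^ m)) :=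
    mul_le_mul_of_nonneg_right hE hY.le
  have h8 : 3 * C / t ^ B * (A / (2 * 3 ^ m)) = 3 * (C / t ^ B * (A / (2 * 3 ^ m))) := by ring
  rw [h8]
  linarith

end Pool.Agent.H319R3.LV
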