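import Pool.Agent.H33.G.R_seed8.H319R3.LV.LV2
import Pool.Agent.H33.G.R_seed8.H499R2.NDHarm

/-! Level of distribution: classes mod `3^m` of all integers of a window. -/

set_option autoImplicit false
set_option linter.unusedVariables false

namespace Pool.Agent.H319R3.LV

open Pool.Agent.H320R2.PD Pool.Agent.H499R2.ND Finset

theorem dvd_half (m : ℕ) (c y : ℤ) :
    (3 : ℤ) ^ m ∣ 2 * y - c ↔ (3 : ℤ) ^ m ∣ y - c * ((3 ^ m + 1) / 2) := by
  have hodd : Odd ((3 : ℤ) ^ m) := Odd.pow (by decide)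
  obtain ⟨r, hr⟩ := hodd
  have hh : ((3 : ℤ) ^ m + 1) / 2 = r + 1 := by rw [hr]; omega
  rw [hh]
  constructor
  · intro h
    have h1 : (3 : ℤ) ^ m ∣ (r + 1) * (2 * y - c) := h.mul_left _
    have h2 : (r + 1) * (2 * y - c) = 3 ^ m * y + (y - c * (r + 1)) := by rw [hr]; ring
    rw [h2] at h1
    exact (dvd_add_right (Dvd.intro _ rfl)).1 h1
  · intro h
    have h1 : (3 : ℤ) ^ m ∣ 2 * (y - c * (r + 1)) := h.mul_left _
    have h2 : 2 * (y - c * (r + 1)) = (2 * y - c) - 3 ^ m * c := by rw [hr]; ring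
    rw [h2] at h1
    have h3 := dvd_add h1 (Dvd.intro c rfl : (3 : ℤ) ^ m ∣ 3 ^ m * c)
    simpa using h3

/-- parity decomposition mod `3^m` -/
theorem wc_parity_pow {d : ℤ} {S : Set ℤ} (h : Inv d S) (A : ℝ) (m : ℕ) (c : ℤ) :
    (wc S A (2 * A) (3 ^ m) c).card = (cls S A (2 * A) m 1 c).card
      + (wc S (A / 2) (2 * (A / 2)) (3 ^ m) (c * ((3 ^ m + 1) / 2))).card := by
  classical
  set c2 := c * ((3 ^ m + 1) / 2) with hc2
  have hev : (wc S (A / 2) (2 * (A / 2)) (3 ^ m) c2).card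
      = ((wc S (A / 2) (2 * (A / 2)) (3 ^ m) c2).image fun x => 2 * x).card := by
    rw [card_image_of_injective]
    intro x y hxy
    simp only at hxy
    omega
  rw [hev, ← card_union_of_disjoint]
  · congr 1
    ext x
    rw [mem_wc, mem_union, mem_cls, mem_image]
    constructor
    · rintro ⟨h1, h2, h3⟩
      rcases Int.even_or_odd x with he | ho
      · right
        obtain ⟨y, hy⟩ := he
        refine ⟨y, ?_, by omega⟩
        rw [mem_wc]
        have hxy : (x : ℝ) = 2 * y := by rw [hy]; push_cast; ring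
        have hx2 : x = 2 * y := by omega
        refine ⟨⟨by linarith [h1.1], by linarith [h1.2]⟩, ?_, ?_⟩
        · rw [← h.two, ← hx2]; exact h2
        · rw [hc2, ← dvd_half, ← hx2]; exact h3
      · left
        exact ⟨h1, ho, h2, by rw [one_mul]; exact h3⟩
    · rintro (⟨h1, h2, h3, h4⟩ | ⟨y, hy, rfl⟩)
      · rw [one_mul] at h4; exact ⟨h1, h3, h4⟩
      · rw [mem_wc] at hy
        obtain ⟨h1, h2, h3⟩ := hy
        push_cast
        refine ⟨⟨by linarith [h1.1], by linarith [h1.2]⟩, (h.two y).2 h2, ?_⟩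
        rw [dvd_half, ← hc2]; exact h3
  · rw [Finset.disjoint_left]
    intro x hx hx'
    rw [mem_cls] at hx
    rw [mem_image] at hx'
    obtain ⟨y, _, rfl⟩ := hx'
    have := hx.2.1
    rw [Int.odd_iff] at this
    omega

theorem wc_iter {d : ℤ} {S : Set ℤ} (h : Inv d S) (A : ℝ) (m : ℕ) (c : ℤ) (n : ℕ) :
    (wc S A (2 * A) (3 ^ m) c).card
      = ∑ i ∈ range n, (cls S (A / 2 ^ i) (2 * (A / 2 ^ i)) m 1 (c * ((3 ^ m + 1) / 2) ^ i)).card
        + (wc S (A / 2 ^ n) (2 * (A / 2 ^ n)) (3 ^ m) (c * ((3 ^ m + 1) / 2) ^ n)).card := by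
  induction n with
  | zero => simp
  | succ n ih =>
    rw [ih, sum_range_succ]
    have h1 := wc_parity_pow h (A / 2 ^ n) m (c * ((3 ^ m + 1) / 2) ^ n)
    rw [div_div, ← pow_succ, mul_assoc, ← pow_succ] at h1
    rw [h1]
    ring

/-- equidistribution mod `3^m` of an invariant set, all integers of a window -/
theorem equi_all_lin (B : ℕ) {d : ℤ} (hd : Odd d) (hd3 : IsCoprime d 3) : ∃ K : ℝ, 0 < K ∧
    ∃ c₀ : ℝ, 0 < c₀ ∧ c₀ ≤ 1 / 2000 ∧
    ∀ S : Set ℤ, Inv d S → ∀ A : ℝ, 0 < A → 2000 ≤ Real.log A → ∀ m : ℕ,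
      (m : ℝ) ≤ c₀ * Real.log A → ∀ c c' : ℤ,
      ((wc S A (2 * A) (3 ^ m) c).card : ℝ)
        ≤ (wc S A (2 * A) (3 ^ m) c').card + K / (Real.log A) ^ B * (A / 3 ^ m) := by
  obtain ⟨C, hC, c₀, hc₀, hc₀1, he⟩ := equi_odd_lin B hd hd3
  refine ⟨C * 2 ^ B + 3 * (B.factorial * 5 ^ B), by positivity, c₀ / 2, by positivity,
    by linarith, ?_⟩
  intro S hS A hA ht m hm c c'
  set t := Real.log A with htdef
  have htpos : 0 < t := by linarith
  have hl2 := Real.log_two_gt_d9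
  have hl2' := Real.log_two_lt_d9
  have hexpA : Real.exp t = A := Real.exp_log hA
  obtain ⟨n, hn⟩ : ∃ n : ℕ, n = ⌊t / (2 * Real.log 2)⌋₊ := ⟨_, rfl⟩
  have hn1 : (n : ℝ) * Real.log 2 ≤ t / 2 := by
    have h1 : (n : ℝ) ≤ t / (2 * Real.log 2) := by rw [hn]; exact Nat.floor_le (by positivity)
    rw [le_div_iff₀ (by positivity)] at h1
    linarith
  have hn2 : t / 2 - Real.log 2 ≤ n * Real.log 2 := by
    have h1 : t / (2 * Real.log 2) < n + 1 := by rw [hn]; exact Nat.lt_floor_add_one _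
    rw [div_lt_iff₀ (by positivity)] at h1
    linarith
  have hlog : ∀ i : ℕ, Real.log (A / 2 ^ i) = t - i * Real.log 2 := by
    intro i
    rw [Real.log_div hA.ne' (by positivity), Real.log_pow]
  have hlow : ∀ i : ℕ, i ≤ n → t / 2 ≤ Real.log (A / 2 ^ i) := by
    intro i hi
    rw [hlog]
    have : (i : ℝ) * Real.log 2 ≤ n * Real.log 2 :=
      mul_le_mul_of_nonneg_right (by exact_mod_cast hi) (by linarith)
    linarith
  have h1 := wc_iter hS A m c n
  have h2 := wc_iter hS A m c' n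
  have h1' : ((wc S A (2 * A) (3 ^ m) c).card : ℝ)
      = ∑ i ∈ range n, ((cls S (A / 2 ^ i) (2 * (A / 2 ^ i)) m 1 (c * ((3 ^ m + 1) / 2) ^ i)).card : ℝ)
        + (wc S (A / 2 ^ n) (2 * (A / 2 ^ n)) (3 ^ m) (c * ((3 ^ m + 1) / 2) ^ n)).card := by
    exact_mod_cast h1
  have h2' : ((wc S A (2 * A) (3 ^ m) c').card : ℝ)
      = ∑ i ∈ range n, ((cls S (A / 2 ^ i) (2 * (A / 2 ^ i)) m 1 (c' * ((3 ^ m + 1) / 2) ^ i)).card : ℝ)
        + (wc S (A / 2 ^ n) (2 * (A / 2 ^ n)) (3 ^ m) (c' * ((3 ^ m + 1) / 2) ^ n)).card := by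
    exact_mod_cast h2
  have h3 : ∀ i ∈ range n,
      ((cls S (A / 2 ^ i) (2 * (A / 2 ^ i)) m 1 (c * ((3 ^ m + 1) / 2) ^ i)).card : ℝ)
        ≤ (cls S (A / 2 ^ i) (2 * (A / 2 ^ i)) m 1 (c' * ((3 ^ m + 1) / 2) ^ i)).card
          + (C * 2 ^ B / t ^ B * (A / 3 ^ m)) * ((1 / 2) ^ i * (1 / 2)) := by
    intro i hi
    rw [mem_range] at hi
    have hlo := hlow i hi.le
    have hApos : 0 < A / 2 ^ i := by positivity
    have h4 := he S hS.fwd hS.compl.fwd (A / 2 ^ i) hApos (by linarith) m (by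
      have : c₀ / 2 * t ≤ c₀ * Real.log (A / 2 ^ i) := by
        have := mul_le_mul_of_nonneg_left hlo hc₀.le
        linarith
      linarith) (c * ((3 ^ m + 1) / 2) ^ i) (c' * ((3 ^ m + 1) / 2) ^ i)
    refine h4.trans ?_
    have h5 : C / Real.log (A / 2 ^ i) ^ B ≤ C * 2 ^ B / t ^ B := by
      rw [div_le_div_iff₀ (pow_pos (by linarith) B) (by positivity), mul_assoc, ← mul_pow]
      apply mul_le_mul_of_nonneg_left _ hC.le
      apply pow_le_pow_left₀ htpos.le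
      linarith
    have h6 : C / Real.log (A / 2 ^ i) ^ B * (A / 2 ^ i / (2 * 3 ^ m))
        ≤ C * 2 ^ B / t ^ B * (A / 2 ^ i / (2 * 3 ^ m)) :=
      mul_le_mul_of_nonneg_right h5 (by positivity)
    have h7 : C * 2 ^ B / t ^ B * (A / 2 ^ i / (2 * 3 ^ m))
        = (C * 2 ^ B / t ^ B * (A / 3 ^ m)) * ((1 / 2) ^ i * (1 / 2)) := by
      rw [one_div_pow]; field_simp
    linarith
  have h4 := sum_le_sum h3
  rw [sum_add_distrib, ← mul_sum, ← sum_mul] at h4
  have h5 : (∑ i ∈ range n, (1 / 2 : ℝ) ^ i) * (1 / 2) ≤ 1 := by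
    have := Summable.sum_le_tsum (range n) (f := fun i : ℕ => (1 / 2 : ℝ) ^ i) (fun i _ => by positivity)
      summable_geometric_two
    rw [tsum_geometric_two] at this
    linarith
  have h6 : (C * 2 ^ B / t ^ B * (A / 3 ^ m)) * ((∑ i ∈ range n, (1 / 2 : ℝ) ^ i) * (1 / 2))
      ≤ C * 2 ^ B / t ^ B * (A / 3 ^ m) := by
    apply mul_le_of_le_one_right (by positivity) h5
  -- the rest
  have h7 := wc_card_le S (a := A / 2 ^ n) (b := 2 * (A / 2 ^ n)) (by
    have : 0 < A / 2 ^ n := by positivity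
    linarith) (q := 3 ^ m) (by positivity) (c * ((3 ^ m + 1) / 2) ^ n)
  push_cast at h7
  have h8 : (0 : ℝ) ≤ (wc S (A / 2 ^ n) (2 * (A / 2 ^ n)) (3 ^ m) (c' * ((3 ^ m + 1) / 2) ^ n)).card :=
    Nat.cast_nonneg _
  have h9 : A / 2 ^ n ≤ A * (2 * Real.exp (-(t / 5))) := by
    rw [div_eq_mul_inv]
    apply mul_le_mul_of_nonneg_left _ hA.le
    have e1 : (2 : ℝ) ^ n = Real.exp (n * Real.log 2) := by
      rw [Real.exp_nat_mul, Real.exp_log (by norm_num)]
    rw [e1, ← Real.exp_neg]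
    have e2 : (2 : ℝ) * Real.exp (-(t / 5)) = Real.exp (Real.log 2 - t / 5) := by
      rw [sub_eq_add_neg, Real.exp_add, Real.exp_log (by norm_num)]
    rw [e2]
    apply Real.exp_le_exp.2
    linarith
  have h10 : (1 : ℝ) ≤ A * Real.exp (-(t / 5)) / 3 ^ m := by
    rw [le_div_iff₀ (by positivity), one_mul]
    have e1 := pow_m_le_lin htpos.le (m := m) (by
      have : c₀ / 2 * t ≤ t / 1000 := by nlinarith
      linarith)
    refine e1.trans ?_
    rw [← hexpA, ← Real.exp_add]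
    apply Real.exp_le_exp.2
    linarith
  have hexp5 := exp_neg_le B (by norm_num : (0 : ℝ) < 5) htpos
  have h11 : (2 * (A / 2 ^ n) - A / 2 ^ n) / 3 ^ m + 1 ≤ 3 * (B.factorial * 5 ^ B) / t ^ B * (A / 3 ^ m) := by
    have e1 : (2 * (A / 2 ^ n) - A / 2 ^ n) / 3 ^ m ≤ A * (2 * Real.exp (-(t / 5))) / 3 ^ m := by
      apply div_le_div_of_nonneg_right _ (by positivity)
      linarith
    have e2 : A * (2 * Real.exp (-(t / 5))) / 3 ^ m + A * Real.exp (-(t / 5)) / 3 ^ m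
        = 3 * Real.exp (-(t / 5)) * (A / 3 ^ m) := by ring
    have e3 : 3 * Real.exp (-(t / 5)) * (A / 3 ^ m) ≤ 3 * ((B.factorial * 5 ^ B) / t ^ B) * (A / 3 ^ m) := by
      apply mul_le_mul_of_nonneg_right _ (by positivity)
      linarith
    have e4 : 3 * ((B.factorial * 5 ^ B) / t ^ B) * (A / 3 ^ m)
        = 3 * (B.factorial * 5 ^ B) / t ^ B * (A / 3 ^ m) := by ring
    linarith
  have h12 : (C * 2 ^ B + 3 * (B.factorial * 5 ^ B)) / t ^ B * (A / 3 ^ m)
      = C * 2 ^ B / t ^ B * (A / 3 ^ m) + 3 * (B.factorial * 5 ^ B) / t ^ B * (A / 3 ^ m) := by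
    ring
  rw [h12, h1', h2']
  rw [mul_assoc] at h4
  linarith

/-- the classes mod `q` exhaust a window -/
theorem sum_classes (S : Set ℤ) (a b : ℝ) (q : ℕ) (hq : 0 < q) :
    ∑ c ∈ range q, (wc S a b q (c : ℤ)).card = (wc S a b 1 0).card := by
  classical
  have hqZ : (0 : ℤ) < q := by exact_mod_cast hq
  rw [card_eq_sum_card_fiberwise (f := fun x : ℤ => (x % q).toNat) (t := range q)]
  · apply sum_congr rfl
    intro c hc
    congr 1
    ext x
    rw [mem_wc, mem_filter, mem_wc]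
    rw [mem_range] at hc
    have hx0 := Int.emod_nonneg x hqZ.ne'
    have hx1 := Int.emod_lt_of_pos x hqZ
    constructor
    · rintro ⟨h1, h2, h3⟩
      refine ⟨⟨h1, h2, one_dvd _⟩, ?_⟩
      have h4 : x % q = (c : ℤ) % q := (Int.emod_emod_of_dvd x (dvd_refl _)).symm.trans (by
        rw [Int.emod_emod_of_dvd x (dvd_refl _)]
        exact (Int.emod_emod_of_dvd x (dvd_refl (q : ℤ))).symm.trans (by
          rw [Int.emod_emod_of_dvd x (dvd_refl _)]
          exact (Int.ModEq.symm ((Int.modEq_iff_dvd).2 h3))))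
      rw [Int.emod_eq_of_lt (by positivity : (0 : ℤ) ≤ (c : ℤ)) (by exact_mod_cast hc)] at h4
      rw [h4]; simp
    · rintro ⟨⟨h1, h2, _⟩, h3⟩
      refine ⟨h1, h2, ?_⟩
      have h4 : x % q = (c : ℤ) := by omega
      exact ⟨x / q, by have := Int.emod_add_mul_ediv x q; rw [h4] at this; linarith⟩
  · intro x hx
    have hx0 := Int.emod_nonneg x hqZ.ne'
    have hx1 := Int.emod_lt_of_pos x hqZ
    rw [mem_coe, mem_range]
    show (x % (q : ℤ)).toNat < q
    omega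

/-- each class mod `3^m` contains the right proportion of the elements of `S` -/
theorem equi_avg (B : ℕ) {d : ℤ} (hd : Odd d) (hd3 : IsCoprime d 3) : ∃ K : ℝ, 0 < K ∧
    ∃ c₀ : ℝ, 0 < c₀ ∧ c₀ ≤ 1 / 2000 ∧
    ∀ S : Set ℤ, Inv d S → ∀ A : ℝ, 0 < A → 2000 ≤ Real.log A → ∀ m : ℕ,
      (m : ℝ) ≤ c₀ * Real.log A → ∀ c : ℤ,
      |((wc S A (2 * A) (3 ^ m) c).card : ℝ) - (wc S A (2 * A) 1 0).card / 3 ^ m|
        ≤ K / (Real.log A) ^ B * (A / 3 ^ m) := by
  obtain ⟨K, hK, c₀, hc₀, hc₀1, he⟩ := equi_all_lin B hd hd3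
  refine ⟨K, hK, c₀, hc₀, hc₀1, ?_⟩
  intro S hS A hA ht m hm c
  have hsum := sum_classes S A (2 * A) (3 ^ m) (by positivity)
  have hsum' : ∑ c' ∈ range (3 ^ m), ((wc S A (2 * A) (3 ^ m) (c' : ℤ)).card : ℝ)
      = (wc S A (2 * A) 1 0).card := by
    have : ∑ c' ∈ range (3 ^ m), (wc S A (2 * A) ((3 ^ m : ℕ) : ℤ) (c' : ℤ)).card
      = (wc S A (2 * A) 1 0).card := hsum
    push_cast at this
    exact_mod_cast this
  set E := K / (Real.log A) ^ B * (A / 3 ^ m) with hE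
  have h3 : (0 : ℝ) < 3 ^ m := by positivity
  have up : (3 : ℝ) ^ m * (wc S A (2 * A) (3 ^ m) c).card ≤ (wc S A (2 * A) 1 0).card + 3 ^ m * E := by
    rw [← hsum']
    have : ∑ c' ∈ range (3 ^ m), ((wc S A (2 * A) (3 ^ m) c).card : ℝ)
        ≤ ∑ c' ∈ range (3 ^ m), (((wc S A (2 * A) (3 ^ m) (c' : ℤ)).card : ℝ) + E) :=
      sum_le_sum fun c' _ => he S hS A hA ht m hm c c'
    rw [sum_const, card_range, nsmul_eq_mul, sum_add_distrib, sum_const, card_range, nsmul_eq_mul] at this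
    push_cast at this
    exact this
  have lo : ((wc S A (2 * A) 1 0).card : ℝ) ≤ 3 ^ m * (wc S A (2 * A) (3 ^ m) c).card + 3 ^ m * E := by
    rw [← hsum']
    have : ∑ c' ∈ range (3 ^ m), ((wc S A (2 * A) (3 ^ m) (c' : ℤ)).card : ℝ)
        ≤ ∑ c' ∈ range (3 ^ m), (((wc S A (2 * A) (3 ^ m) c).card : ℝ) + E) :=
      sum_le_sum fun c' _ => he S hS A hA ht m hm c' c
    rw [sum_const, card_range, nsmul_eq_mul] at this
    push_cast at this
    linarith
  rw [abs_le]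
  constructor
  · have : (wc S A (2 * A) 1 0).card / 3 ^ m ≤ ((wc S A (2 * A) (3 ^ m) c).card : ℝ) + E := by
      rw [div_le_iff₀ h3]; linarith
    linarith
  · have : ((wc S A (2 * A) (3 ^ m) c).card : ℝ) ≤ (wc S A (2 * A) 1 0).card / 3 ^ m + E := by
      have h5 : ((wc S A (2 * A) 1 0).card : ℝ) / 3 ^ m + E
          = ((wc S A (2 * A) 1 0).card + 3 ^ m * E) / 3 ^ m := by field_simp
      rw [h5, le_div_iff₀ h3]; linarith
    linarith

end Pool.Agent.H319R3.LV
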