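import Pool.Agent.H33.G.R_seed8.H319R3.LV.LV3
import Pool.Agent.H33.G.R_seed8.H499R2.NDK

/-! Level of distribution: classes mod `2^j 3^m`, windows. -/

set_option autoImplicit false
set_option linter.unusedVariables false

namespace Pool.Agent.H319R3.LV

open Pool.Agent.H320R2.PD Pool.Agent.H499R2.ND Finset

/-- the first `j` steps on a class mod `2^j` -/
theorem Td_prefix {d : ℤ} (hd : Odd d) (a : ℤ) (j : ℕ) : ∃ o : ℕ, o ≤ j ∧
    (∀ t : ℤ, (Td d)^[j] (a + 2 ^ j * t) = (Td d)^[j] a + 3 ^ o * t) ∧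
    |(((Td d)^[j] a : ℤ) : ℝ) - 3 ^ o / 2 ^ j * a| ≤ |(d : ℝ)| * 3 ^ o / 2 := by
  induction j with
  | zero =>
    refine ⟨0, le_refl _, fun t => by simp, ?_⟩
    simp
    positivity
  | succ j ih =>
    obtain ⟨o, hoj, hT, hb⟩ := ih
    set y := (Td d)^[j] a with hy
    have hd0 : 0 ≤ |(d : ℝ)| := abs_nonneg _
    have h3o : (1 : ℝ) ≤ 3 ^ o := one_le_pow₀ (by norm_num)
    rcases Int.even_or_odd y with he | ho
    · refine ⟨o, by omega, ?_, ?_⟩
      · intro t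
        have h1 : a + 2 ^ (j + 1) * t = a + 2 ^ j * (2 * t) := by rw [pow_succ]; ring
        rw [Function.iterate_succ_apply', Function.iterate_succ_apply', h1, hT (2 * t), ← hy]
        obtain ⟨z, hz⟩ : ∃ z : ℤ, z = 3 ^ o * t := ⟨_, rfl⟩
        rw [show (3 : ℤ) ^ o * (2 * t) = 2 * z by rw [hz]; ring, ← hz]
        obtain ⟨r, hr⟩ := he
        unfold Td
        rw [if_pos (by omega), if_pos (by omega)]
        omega
      · rw [Function.iterate_succ_apply', ← hy]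
        obtain ⟨r, hr⟩ := he
        have h1 : Td d y = r := by
          unfold Td
          rw [if_pos (by omega)]
          omega
        have h2 : (y : ℝ) = 2 * r := by rw [hr]; push_cast; ring
        rw [h1]
        have h3 : (r : ℝ) - 3 ^ o / 2 ^ (j + 1) * a = (y - 3 ^ o / 2 ^ j * a) / 2 := by
          rw [h2, pow_succ]; field_simp
        rw [h3, abs_div, abs_of_pos (by norm_num : (0 : ℝ) < 2)]
        have : 0 ≤ |(d : ℝ)| * 3 ^ o / 2 := by positivity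
        linarith
    · refine ⟨o + 1, by omega, ?_, ?_⟩
      · intro t
        have h1 : a + 2 ^ (j + 1) * t = a + 2 ^ j * (2 * t) := by rw [pow_succ]; ring
        rw [Function.iterate_succ_apply', Function.iterate_succ_apply', h1, hT (2 * t), ← hy]
        obtain ⟨z, hz⟩ : ∃ z : ℤ, z = 3 ^ o * t := ⟨_, rfl⟩
        rw [show (3 : ℤ) ^ o * (2 * t) = 2 * z by rw [hz]; ring,
          show (3 : ℤ) ^ (o + 1) * t = 3 * z by rw [hz, pow_succ]; ring]
        obtain ⟨r, hr⟩ := ho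
        obtain ⟨e, he⟩ := hd
        unfold Td
        rw [if_neg (by omega), if_neg (by omega)]
        omega
      · rw [Function.iterate_succ_apply', ← hy]
        obtain ⟨r, hr⟩ := ho
        obtain ⟨e, he⟩ := hd
        have h1 : 2 * Td d y = 3 * y + d := by
          unfold Td
          rw [if_neg (by omega)]
          omega
        have h2 : ((Td d y : ℤ) : ℝ) = (3 * y + d) / 2 := by
          have : (2 : ℝ) * (Td d y : ℤ) = 3 * y + d := by exact_mod_cast h1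
          linarith
        rw [h2]
        have h3 : (3 * (y : ℝ) + d) / 2 - 3 ^ (o + 1) / 2 ^ (j + 1) * a
            = 3 / 2 * (y - 3 ^ o / 2 ^ j * a) + d / 2 := by
          rw [pow_succ, pow_succ]; field_simp; ring
        rw [h3]
        refine (abs_add_le _ _).trans ?_
        rw [abs_mul, abs_of_pos (by norm_num : (0 : ℝ) < 3 / 2), abs_div (d : ℝ) 2,
          abs_of_pos (by norm_num : (0 : ℝ) < 2), pow_succ]
        have : |(d : ℝ)| ≤ |(d : ℝ)| * 3 ^ o := le_mul_of_one_le_right hd0 h3o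
        linarith

/-- elements of an invariant set in a class mod `2^j 3^m`, moved by `T^j` -/
theorem prefix_card {d : ℤ} (hd : Odd d) {S : Set ℤ} (h : Inv d S) (A : ℝ) (j m : ℕ) (a : ℤ) :
    ∃ o : ℕ, o ≤ j ∧ ∃ y : ℤ, ∃ s : ℝ, |s| ≤ |(d : ℝ)| * 3 ^ o / 2 ∧
      (wc S A (2 * A) (2 ^ j * 3 ^ m) a).card
        = (wc S (3 ^ o / 2 ^ j * A + s) (2 * (3 ^ o / 2 ^ j * A) + s) (3 ^ (o + m)) y).card := by
  obtain ⟨o, hoj, hT, hb⟩ := Td_prefix hd a j
  set y := (Td d)^[j] a with hy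
  refine ⟨o, hoj, y, (y : ℝ) - 3 ^ o / 2 ^ j * a, hb, ?_⟩
  have h2j : (0 : ℝ) < 2 ^ j := by positivity
  have h3o : (0 : ℝ) < 3 ^ o := by positivity
  have h2jZ : (2 : ℤ) ^ j ≠ 0 := by positivity
  have h3oZ : (3 : ℤ) ^ o ≠ 0 := by positivity
  -- the correspondence
  have key : ∀ t : ℤ, (A ≤ ((a + 2 ^ j * t : ℤ) : ℝ) ∧ ((a + 2 ^ j * t : ℤ) : ℝ) < 2 * A) ↔
      (3 ^ o / 2 ^ j * A + ((y : ℝ) - 3 ^ o / 2 ^ j * a) ≤ ((y + 3 ^ o * t : ℤ) : ℝ) ∧
        ((y + 3 ^ o * t : ℤ) : ℝ) < 2 * (3 ^ o / 2 ^ j * A) + ((y : ℝ) - 3 ^ o / 2 ^ j * a)) := by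
    intro t
    have e1 : ((y + 3 ^ o * t : ℤ) : ℝ) - ((y : ℝ) - 3 ^ o / 2 ^ j * a)
        = 3 ^ o / 2 ^ j * ((a + 2 ^ j * t : ℤ) : ℝ) := by
      push_cast; field_simp; ring
    have hc : (0 : ℝ) < 3 ^ o / 2 ^ j := by positivity
    have e2 : (A ≤ ((a + 2 ^ j * t : ℤ) : ℝ)) ↔
        3 ^ o / 2 ^ j * A ≤ 3 ^ o / 2 ^ j * ((a + 2 ^ j * t : ℤ) : ℝ) :=
      (mul_le_mul_iff_right₀ hc).symm
    have e3 : (((a + 2 ^ j * t : ℤ) : ℝ) < 2 * A) ↔
        3 ^ o / 2 ^ j * ((a + 2 ^ j * t : ℤ) : ℝ) < 3 ^ o / 2 ^ j * (2 * A) :=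
      (mul_lt_mul_iff_right₀ hc).symm
    rw [e2, e3, ← e1]
    constructor
    · rintro ⟨h1, h2⟩; constructor <;> linarith
    · rintro ⟨h1, h2⟩; constructor <;> linarith
  have hmem : ∀ t : ℤ, a + 2 ^ j * t ∈ S ↔ y + 3 ^ o * t ∈ S := by
    intro t
    rw [inv_iter h j (a + 2 ^ j * t), hT t]
  refine Finset.card_nbij' (fun x => y + 3 ^ o * ((x - a) / 2 ^ j)) (fun z => a + 2 ^ j * ((z - y) / 3 ^ o))
    ?_ ?_ ?_ ?_
  · intro x hx
    rw [mem_coe, mem_wc] at hx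
    obtain ⟨h1, h2, t, ht⟩ := hx
    have hx' : x = a + 2 ^ j * (3 ^ m * t) := by linarith
    have hq : (x - a) / 2 ^ j = 3 ^ m * t := by
      rw [ht, mul_assoc, Int.mul_ediv_cancel_left _ h2jZ]
    rw [mem_coe, mem_wc]
    show _ ∧ _
    beta_reduce
    rw [hq]
    rw [hx'] at h1 h2
    refine ⟨(key _).1 h1, (hmem _).1 h2, ⟨t, ?_⟩⟩
    rw [pow_add]; ring
  · intro z hz
    rw [mem_coe, mem_wc] at hz
    obtain ⟨h1, h2, t, ht⟩ := hz
    have hz' : z = y + 3 ^ o * (3 ^ m * t) := by rw [pow_add] at ht; linarith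
    have hq : (z - y) / 3 ^ o = 3 ^ m * t := by
      rw [ht, pow_add, mul_assoc, Int.mul_ediv_cancel_left _ h3oZ]
    rw [mem_coe, mem_wc]
    beta_reduce
    rw [hq]
    rw [hz'] at h1 h2
    refine ⟨(key _).2 h1, (hmem _).2 h2, ⟨t, ?_⟩⟩
    ring
  · intro x hx
    rw [mem_coe, mem_wc] at hx
    obtain ⟨h1, h2, t, ht⟩ := hx
    have hq : (x - a) / 2 ^ j = 3 ^ m * t := by
      rw [ht, mul_assoc, Int.mul_ediv_cancel_left _ h2jZ]
    beta_reduce
    rw [hq, add_sub_cancel_left, Int.mul_ediv_cancel_left _ h3oZ]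
    linarith
  · intro z hz
    rw [mem_coe, mem_wc] at hz
    obtain ⟨h1, h2, t, ht⟩ := hz
    have hq : (z - y) / 3 ^ o = 3 ^ m * t := by
      rw [ht, pow_add, mul_assoc, Int.mul_ediv_cancel_left _ h3oZ]
    beta_reduce
    rw [hq, add_sub_cancel_left, Int.mul_ediv_cancel_left _ h2jZ]
    rw [pow_add] at ht
    linarith

/-- one window: the count in a class mod `2^j 3^m` -/
theorem window_prefix (B : ℕ) {d : ℤ} (hd : Odd d) (hd3 : IsCoprime d 3) : ∃ K : ℝ, 0 < K ∧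
    ∃ c₀ : ℝ, 0 < c₀ ∧ c₀ ≤ 1 / 8000 ∧
    ∀ S : Set ℤ, Inv d S → ∀ A : ℝ, 0 < A → 4000 ≤ Real.log A → ∀ j m : ℕ,
      Real.log (2 ^ j * 3 ^ m) ≤ c₀ * Real.log A → ∀ a : ℤ, ∃ L : ℝ, A / 2 ^ j ≤ L ∧
      |((wc S A (2 * A) (2 ^ j * 3 ^ m) a).card : ℝ)
          - (wc S L (2 * L) 1 0).card / L * (A / (2 ^ j * 3 ^ m))|
        ≤ K / (Real.log A) ^ B * (A / (2 ^ j * 3 ^ m)) := by
  obtain ⟨K, hK, c₀, hc₀, hc₀1, he⟩ := equi_avg B hd hd3
  refine ⟨K * 2 ^ B + (|(d : ℝ)| + 1) * (B.factorial * 2 ^ B), by positivity, c₀ / 4, by positivity,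
    by linarith, ?_⟩
  intro S hS A hA ht j m hjm a
  set t := Real.log A with htdef
  have htpos : 0 < t := by linarith
  have hexpA : Real.exp t = A := Real.exp_log hA
  have hl2 := Real.log_two_gt_d9
  have hl2' := Real.log_two_lt_d9
  have hl3 := log3_ge
  have hlog : (j : ℝ) * Real.log 2 + m * Real.log 3 ≤ c₀ / 4 * t := by
    rw [Real.log_mul (by positivity) (by positivity), Real.log_pow, Real.log_pow] at hjm
    exact hjm
  have hj0 : (0 : ℝ) ≤ j := Nat.cast_nonneg _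
  have hm0 : (0 : ℝ) ≤ m := Nat.cast_nonneg _
  have hjm2 : (j : ℝ) + m ≤ c₀ / 2 * t := by
    have h1 : (j : ℝ) / 2 ≤ j * Real.log 2 := by nlinarith
    have h2 : (m : ℝ) / 2 ≤ m * Real.log 3 := by nlinarith
    linarith
  have hj2 : (j : ℝ) * Real.log 2 ≤ t / 2 := by
    have h2 : 0 ≤ (m : ℝ) * Real.log 3 := by
      apply mul_nonneg hm0; linarith
    nlinarith
  obtain ⟨o, hoj, y, s, hs, hcard⟩ := prefix_card hd hS A j m a
  set L : ℝ := 3 ^ o / 2 ^ j * A with hL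
  have hLpos : 0 < L := by positivity
  have hAL : A / 2 ^ j ≤ L := by
    rw [hL, div_mul_eq_mul_div]
    apply div_le_div_of_nonneg_right _ (by positivity)
    exact le_mul_of_one_le_left hA.le (one_le_pow₀ (by norm_num))
  refine ⟨L, hAL, ?_⟩
  have hlogL : t / 2 ≤ Real.log L := by
    have h1 : Real.log (A / 2 ^ j) ≤ Real.log L := Real.log_le_log (by positivity) hAL
    rw [Real.log_div hA.ne' (by positivity), Real.log_pow] at h1
    linarith
  have ho : (((o + m : ℕ)) : ℝ) ≤ c₀ * Real.log L := by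
    push_cast
    have h1 : (o : ℝ) ≤ j := by exact_mod_cast hoj
    nlinarith
  have h1 := he S hS L hLpos (by linarith) (o + m) ho y
  have h2 := wc_shift_le S L s (3 ^ (o + m)) y
  have h3 := wc_shift_ge S L s (3 ^ (o + m)) y
  have hcard' : ((wc S A (2 * A) (2 ^ j * 3 ^ m) a).card : ℝ)
      = (wc S (L + s) (2 * L + s) (3 ^ (o + m)) y).card := by exact_mod_cast hcard
  have hq : L / 3 ^ (o + m) = A / (2 ^ j * 3 ^ m) := by
    rw [hL, pow_add]; field_simp
  have hq2 : ((wc S L (2 * L) 1 0).card : ℝ) / L * (A / (2 ^ j * 3 ^ m))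
      = (wc S L (2 * L) 1 0).card / 3 ^ (o + m) := by
    rw [← hq]; field_simp
  rw [hq] at h1
  rw [hcard', hq2]
  -- errors
  have e1 : K / Real.log L ^ B ≤ K * 2 ^ B / t ^ B := by
    rw [div_le_div_iff₀ (pow_pos (by linarith) B) (by positivity), mul_assoc, ← mul_pow]
    apply mul_le_mul_of_nonneg_left _ hK.le
    apply pow_le_pow_left₀ htpos.le
    linarith
  have hY : 0 < A / (2 ^ j * 3 ^ m) := by positivity
  have e2 : K / Real.log L ^ B * (A / (2 ^ j * 3 ^ m)) ≤ K * 2 ^ B / t ^ B * (A / (2 ^ j * 3 ^ m)) :=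
    mul_le_mul_of_nonneg_right e1 hY.le
  have hexp := exp_neg_le B (by norm_num : (0 : ℝ) < 2) htpos
  have e3 : |s| + 1 ≤ (|(d : ℝ)| + 1) * (B.factorial * 2 ^ B) / t ^ B * (A / (2 ^ j * 3 ^ m)) := by
    have f1 : (3 : ℝ) ^ o ≤ Real.exp (t / 4) := by
      have : (3 : ℝ) ^ o = Real.exp (Real.log 3 * o) := by
        rw [mul_comm (Real.log 3), Real.exp_nat_mul, Real.exp_log (by norm_num)]
      rw [this]
      apply Real.exp_le_exp.2
      have h5 : Real.log 3 ≤ 1.2 := by linarith [log3_le]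
      have h6 : (o : ℝ) ≤ j := by exact_mod_cast hoj
      have h7 : (o : ℝ) ≤ t / 100 := by nlinarith
      have h8 : (0 : ℝ) ≤ o := Nat.cast_nonneg _
      nlinarith
    have f2 : (2 : ℝ) ^ j * 3 ^ m ≤ Real.exp (t / 4) := by
      have : (2 : ℝ) ^ j * 3 ^ m = Real.exp (j * Real.log 2 + m * Real.log 3) := by
        rw [Real.exp_add, Real.exp_nat_mul, Real.exp_nat_mul, Real.exp_log (by norm_num),
          Real.exp_log (by norm_num)]
      rw [this]
      apply Real.exp_le_exp.2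
      nlinarith
    have f3 : Real.exp (t / 4) ≤ Real.exp (-(t / 2)) * (A / (2 ^ j * 3 ^ m)) := by
      have g1 : Real.exp (t / 4) * Real.exp (t / 4) * Real.exp (t / 2) = A := by
        rw [← Real.exp_add, ← Real.exp_add, ← hexpA]; congr 1; ring
      have g2 : Real.exp (-(t / 2)) * Real.exp (t / 2) = 1 := by
        rw [← Real.exp_add]; simp
      rw [mul_div_assoc', le_div_iff₀ (by positivity)]
      calc Real.exp (t / 4) * (2 ^ j * 3 ^ m) ≤ Real.exp (t / 4) * Real.exp (t / 4) :=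
            mul_le_mul_of_nonneg_left f2 (Real.exp_pos _).le
        _ = Real.exp (-(t / 2)) * A := by
            rw [← g1]
            calc Real.exp (t / 4) * Real.exp (t / 4)
                = Real.exp (t / 4) * Real.exp (t / 4) * (Real.exp (-(t / 2)) * Real.exp (t / 2)) := by
                  rw [g2, mul_one]
              _ = _ := by ring
    have f4 : |s| + 1 ≤ (|(d : ℝ)| + 1) * Real.exp (t / 4) := by
      have g1 : |s| ≤ |(d : ℝ)| * Real.exp (t / 4) := by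
        have : |(d : ℝ)| * 3 ^ o ≤ |(d : ℝ)| * Real.exp (t / 4) :=
          mul_le_mul_of_nonneg_left f1 (abs_nonneg _)
        have h0 : 0 ≤ |(d : ℝ)| * 3 ^ o := by positivity
        linarith
      have g2 : 1 ≤ Real.exp (t / 4) := Real.one_le_exp (by linarith)
      linarith
    calc |s| + 1 ≤ (|(d : ℝ)| + 1) * Real.exp (t / 4) := f4
      _ ≤ (|(d : ℝ)| + 1) * (Real.exp (-(t / 2)) * (A / (2 ^ j * 3 ^ m))) :=
          mul_le_mul_of_nonneg_left f3 (by positivity)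
      _ ≤ (|(d : ℝ)| + 1) * ((B.factorial * 2 ^ B / t ^ B) * (A / (2 ^ j * 3 ^ m))) := by
          apply mul_le_mul_of_nonneg_left _ (by positivity)
          exact mul_le_mul_of_nonneg_right hexp hY.le
      _ = _ := by ring
  have e4 : (K * 2 ^ B + (|(d : ℝ)| + 1) * (B.factorial * 2 ^ B)) / t ^ B * (A / (2 ^ j * 3 ^ m))
      = K * 2 ^ B / t ^ B * (A / (2 ^ j * 3 ^ m))
        + (|(d : ℝ)| + 1) * (B.factorial * 2 ^ B) / t ^ B * (A / (2 ^ j * 3 ^ m)) := by ring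
  rw [e4]
  rw [abs_le] at h1 ⊢
  constructor
  · linarith [h1.1]
  · linarith [h1.2]

end Pool.Agent.H319R3.LV
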