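import Pool.Agent.H33.G.R_seed8.H319R3.LV.LV4
import Pool.Agent.H33.G.R_seed8.H499R2.NDCor

/-! Level of distribution: counting in `[1, X)`. -/

set_option autoImplicit false
set_option linter.unusedVariables false

namespace Pool.Agent.H319R3.LV

open Pool.Agent.H320R2.PD Pool.Agent.H499R2.ND Finset Filter Topology

/-- window density -/
theorem dens_window {S : Set ℤ} {l : ℝ} (hl : Tendsto (fun X : ℝ => G S X / X) atTop (𝓝 l))
    {ε : ℝ} (hε : 0 < ε) : ∃ L0 : ℝ, 0 < L0 ∧ ∀ L : ℝ, L0 ≤ L →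
      |((wc S L (2 * L) 1 0).card : ℝ) / L - l| ≤ ε := by
  have h1 : Tendsto (fun L : ℝ => G S (2 * L) / (2 * L)) atTop (𝓝 l) :=
    hl.comp (tendsto_id.const_mul_atTop (by norm_num : (0 : ℝ) < 2))
  have h2 : Tendsto (fun L : ℝ => 2 * (G S (2 * L) / (2 * L)) - G S L / L) atTop (𝓝 (2 * l - l)) :=
    (h1.const_mul 2).sub hl
  have h3 : 2 * l - l = l := by ring
  rw [h3, Metric.tendsto_atTop] at h2
  obtain ⟨N, hN⟩ := h2 ε hε
  refine ⟨max N 1, by positivity, fun L hL => ?_⟩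
  have hL1 : 1 ≤ L := (le_max_right _ _).trans hL
  have h4 := hN L ((le_max_left _ _).trans hL)
  rw [Real.dist_eq] at h4
  have h5 := G_win S (by linarith : (0 : ℝ) < L) (by linarith : L ≤ 2 * L)
  have h6 : ((wc S L (2 * L) 1 0).card : ℝ) / L = 2 * (G S (2 * L) / (2 * L)) - G S L / L := by
    rw [h5]; field_simp; ring
  rw [h6]
  exact h4.le

/-- windows are additive -/
theorem wc_add (S : Set ℤ) {a b c : ℝ} (hab : a ≤ b) (hbc : b ≤ c) (q y : ℤ) :
    ((wc S a c q y).card : ℝ) = (wc S a b q y).card + (wc S b c q y).card := by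
  classical
  have hdisj : Disjoint (wc S a b q y) (wc S b c q y) := by
    rw [Finset.disjoint_left]
    intro x hx hx'
    rw [mem_wc] at hx hx'
    linarith [hx.1.2, hx'.1.1]
  have hun : wc S a c q y = wc S a b q y ∪ wc S b c q y := by
    ext x
    rw [mem_union, mem_wc, mem_wc, mem_wc]
    constructor
    · rintro ⟨⟨h1, h2⟩, h3⟩
      rcases lt_or_ge (x : ℝ) b with h | h
      · exact Or.inl ⟨⟨h1, h⟩, h3⟩
      · exact Or.inr ⟨⟨h, h2⟩, h3⟩
    · rintro (⟨⟨h1, h2⟩, h3⟩ | ⟨⟨h1, h2⟩, h3⟩)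
      · exact ⟨⟨h1, by linarith⟩, h3⟩
      · exact ⟨⟨by linarith, h2⟩, h3⟩
  rw [hun, card_union_of_disjoint hdisj]
  push_cast; ring

/-- windows: level of distribution -/
theorem window_level {d : ℤ} (hd : Odd d) (hd3 : IsCoprime d 3) : ∃ c₀ : ℝ, 0 < c₀ ∧ c₀ ≤ 1 / 8000 ∧
    ∀ S : Set ℤ, Inv d S → ∀ l : ℝ, Tendsto (fun X : ℝ => G S X / X) atTop (𝓝 l) →
    ∀ ε : ℝ, 0 < ε → ∃ A0 : ℝ, 1 ≤ A0 ∧ ∀ A : ℝ, A0 ≤ A → ∀ j m : ℕ,
      Real.log (2 ^ j * 3 ^ m) ≤ c₀ * Real.log A → ∀ a : ℤ,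
      |((wc S A (2 * A) (2 ^ j * 3 ^ m) a).card : ℝ) - l * (A / (2 ^ j * 3 ^ m))|
        ≤ ε * (A / (2 ^ j * 3 ^ m)) := by
  obtain ⟨K, hK, c₀, hc₀, hc₀1, hw⟩ := window_prefix 1 hd hd3
  refine ⟨c₀, hc₀, hc₀1, ?_⟩
  intro S hS l hl ε hε
  obtain ⟨L0, hL0, hL⟩ := dens_window hl (half_pos hε)
  -- threshold
  set T : ℝ := max (max 4000 (2 * K / ε)) (2 * Real.log L0) with hT
  have hT1 : 4000 ≤ T := (le_max_left _ _).trans (le_max_left _ _)
  have hT2 : 2 * K / ε ≤ T := (le_max_right _ _).trans (le_max_left _ _)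
  have hT3 : 2 * Real.log L0 ≤ T := le_max_right _ _
  refine ⟨Real.exp T, Real.one_le_exp (by linarith), ?_⟩
  intro A hA j m hjm a
  have hA0 : 0 < A := (Real.exp_pos _).trans_le hA
  have hlogA : T ≤ Real.log A := by
    rw [Real.le_log_iff_exp_le hA0]; exact hA
  obtain ⟨L, hAL, hb⟩ := hw S hS A hA0 (by linarith) j m hjm a
  have hY : 0 < A / (2 ^ j * 3 ^ m) := by positivity
  -- L is large
  have hLL : L0 ≤ L := by
    refine le_trans ?_ hAL
    rw [← Real.log_le_log_iff hL0 (by positivity), Real.log_div hA0.ne' (by positivity)]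
    have h1 : Real.log ((2 : ℝ) ^ j) ≤ Real.log (2 ^ j * 3 ^ m) := by
      apply Real.log_le_log (by positivity)
      exact le_mul_of_one_le_right (by positivity) (one_le_pow₀ (by norm_num))
    have h2 : c₀ * Real.log A ≤ 1 / 2 * Real.log A := by
      apply mul_le_mul_of_nonneg_right (by linarith) (by linarith)
    linarith
  have h1 := hL L hLL
  have h2 : |((wc S L (2 * L) 1 0).card : ℝ) / L * (A / (2 ^ j * 3 ^ m)) - l * (A / (2 ^ j * 3 ^ m))|
      ≤ ε / 2 * (A / (2 ^ j * 3 ^ m)) := by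
    rw [← sub_mul, abs_mul, abs_of_pos hY]
    exact mul_le_mul_of_nonneg_right h1 hY.le
  have h3 : K / Real.log A ^ 1 * (A / (2 ^ j * 3 ^ m)) ≤ ε / 2 * (A / (2 ^ j * 3 ^ m)) := by
    apply mul_le_mul_of_nonneg_right _ hY.le
    rw [pow_one, div_le_iff₀ (by linarith)]
    rw [div_le_iff₀ hε] at hT2
    nlinarith
  have h4 := abs_sub_le ((wc S A (2 * A) (2 ^ j * 3 ^ m) a).card : ℝ)
    (((wc S L (2 * L) 1 0).card : ℝ) / L * (A / (2 ^ j * 3 ^ m))) (l * (A / (2 ^ j * 3 ^ m)))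
  linarith

/-- a bounded number of dyadic windows -/
theorem dyadic_level {S : Set ℤ} {l ε c₀ A0 q : ℝ} {Q a : ℤ} (hA0 : 1 ≤ A0) (hc : 0 ≤ c₀)
    (hq : 0 < q) (hql : ∀ A : ℝ, A0 ≤ A → Real.log q ≤ c₀ * Real.log A →
      |((wc S A (2 * A) Q a).card : ℝ) - l * (A / q)| ≤ ε * (A / q)) (n : ℕ) :
    ∀ X : ℝ, A0 ≤ X / 2 ^ n → Real.log q ≤ c₀ * Real.log (X / 2 ^ n) →
      |((wc S (X / 2 ^ n) X Q a).card : ℝ) - l * ((X - X / 2 ^ n) / q)| ≤ ε * ((X - X / 2 ^ n) / q) := by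
  induction n with
  | zero =>
    intro X hX hlog
    have h0 : wc S (X / 2 ^ 0) X Q a = ∅ := by
      rw [Finset.eq_empty_iff_forall_notMem]
      intro x hx
      rw [mem_wc] at hx
      have h1 := hx.1.1
      have h2 := hx.1.2
      rw [pow_zero, div_one] at h1
      linarith
    rw [h0]; simp
  | succ n ih =>
    intro X hX hlog
    have hXpos : 0 < X := by
      have h1 : 0 < X / 2 ^ (n + 1) := by linarith
      by_contra h
      push Not at h
      have : X / 2 ^ (n + 1) ≤ 0 := div_nonpos_of_nonpos_of_nonneg h (by positivity)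
      linarith
    have e1 : X / 2 ^ n = 2 * (X / 2 ^ (n + 1)) := by rw [pow_succ]; field_simp
    have hle : X / 2 ^ (n + 1) ≤ X / 2 ^ n := by rw [e1]; linarith
    have hle2 : X / 2 ^ n ≤ X := div_le_self hXpos.le (one_le_pow₀ (by norm_num))
    have h1 := ih X (hX.trans hle) (hlog.trans (mul_le_mul_of_nonneg_left
      (Real.log_le_log (by linarith) hle) hc))
    have h2 := hql _ hX hlog
    rw [← e1] at h2
    rw [wc_add S hle hle2 Q a]
    have e2 : X - X / 2 ^ (n + 1) = (X - X / 2 ^ n) + X / 2 ^ (n + 1) := by rw [e1]; ring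
    rw [e2, add_div, mul_add, mul_add]
    rw [abs_le] at h1 h2 ⊢
    constructor
    · linarith [h1.1, h2.1]
    · linarith [h1.2, h2.2]

/-- level of distribution for `[1, X)` -/
theorem level_X {d : ℤ} (hd : Odd d) (hd3 : IsCoprime d 3) : ∃ c : ℝ, 0 < c ∧ c ≤ 1 / 16000 ∧
    ∀ S : Set ℤ, Inv d S → ∀ l : ℝ, Tendsto (fun X : ℝ => G S X / X) atTop (𝓝 l) →
    ∀ ε : ℝ, 0 < ε → ∃ X0 : ℝ, 1 ≤ X0 ∧ ∀ X : ℝ, X0 ≤ X → ∀ j m : ℕ,
      Real.log (2 ^ j * 3 ^ m) ≤ c * Real.log X → ∀ a : ℤ,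
      |((wc S 1 X (2 ^ j * 3 ^ m) a).card : ℝ) - l * (X / (2 ^ j * 3 ^ m))|
        ≤ ε * (X / (2 ^ j * 3 ^ m)) := by
  obtain ⟨c₀, hc₀, hc₀1, hw⟩ := window_level hd hd3
  refine ⟨c₀ / 2, by positivity, by linarith, ?_⟩
  intro S hS l hl ε hε
  -- `l ∈ [0,1]`
  have hl0 : 0 ≤ l := by
    apply ge_of_tendsto hl
    filter_upwards [eventually_gt_atTop (0 : ℝ)] with X hX
    exact div_nonneg (G_nonneg _ _) hX.le
  have hl1 : l ≤ 1 := by
    apply le_of_tendsto hl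
    filter_upwards [eventually_gt_atTop (0 : ℝ)] with X hX
    rw [div_le_one hX]
    exact pos_card_le _ hX.le
  obtain ⟨A0, hA0, hA⟩ := hw S hS l hl (ε / 4) (by positivity)
  obtain ⟨n, hn⟩ := pow_unbounded_of_one_lt (4 / ε) (by norm_num : (1 : ℝ) < 2)
  have h2n : (0 : ℝ) < 2 ^ n := by positivity
  have h2n1 : (1 : ℝ) ≤ 2 ^ n := one_le_pow₀ (by norm_num)
  have hn' : 1 / 2 ^ n ≤ ε / 4 := by
    rw [div_le_iff₀ h2n]
    rw [div_lt_iff₀ hε] at hn
    nlinarith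
  refine ⟨max (max (A0 * 2 ^ n) ((2 ^ n) ^ 2)) ((4 / ε) ^ 2), ?_, ?_⟩
  · refine le_trans ?_ ((le_max_left _ _).trans (le_max_left _ _))
    nlinarith
  intro X hX j m hjm a
  have hX1 : A0 * 2 ^ n ≤ X := ((le_max_left _ _).trans (le_max_left _ _)).trans hX
  have hX2 : (2 ^ n) ^ 2 ≤ X := ((le_max_right _ _).trans (le_max_left _ _)).trans hX
  have hX3 : (4 / ε) ^ 2 ≤ X := (le_max_right _ _).trans hX
  have hX0 : 1 ≤ X := by nlinarith
  have hlogX : 0 ≤ Real.log X := Real.log_nonneg hX0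
  set q : ℝ := 2 ^ j * 3 ^ m with hq
  have hq0 : 0 < q := by positivity
  have hA0' : A0 ≤ X / 2 ^ n := by rw [le_div_iff₀ h2n]; exact hX1
  have hlog : Real.log X / 2 ≤ Real.log (X / 2 ^ n) := by
    rw [Real.log_div (by linarith) h2n.ne']
    have h1 : Real.log ((2 ^ n) ^ 2) ≤ Real.log X := Real.log_le_log (by positivity) hX2
    rw [Real.log_pow] at h1
    push_cast at h1
    linarith
  have hlogq : Real.log q ≤ c₀ * Real.log (X / 2 ^ n) := by
    calc Real.log q ≤ c₀ / 2 * Real.log X := hjm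
      _ = c₀ * (Real.log X / 2) := by ring
      _ ≤ _ := mul_le_mul_of_nonneg_left hlog hc₀.le
  have h1 := dyadic_level (S := S) (l := l) (ε := ε / 4) (c₀ := c₀) (A0 := A0) (q := q)
    (Q := 2 ^ j * 3 ^ m) (a := a) hA0 hc₀.le hq0 (fun A hAA hl' => hA A hAA j m hl' a) n X hA0' hlogq
  have hXn : 1 ≤ X / 2 ^ n := hA0.trans hA0'
  have hXn2 : X / 2 ^ n ≤ X := div_le_self (by linarith) h2n1
  have h2 := wc_add S hXn hXn2 (2 ^ j * 3 ^ m) a
  have h3 := wc_card_le S hXn (q := 2 ^ j * 3 ^ m) (by positivity) a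
  have h3' : ((wc S 1 (X / 2 ^ n) (2 ^ j * 3 ^ m) a).card : ℝ) ≤ (X / 2 ^ n - 1) / q + 1 := by
    have : (((2 ^ j * 3 ^ m : ℤ)) : ℝ) = q := by rw [hq]; push_cast; ring
    rw [this] at h3
    exact h3
  have h4 : (X / 2 ^ n - 1) / q ≤ (X / 2 ^ n) / q :=
    div_le_div_of_nonneg_right (by linarith) hq0.le
  -- `1 ≤ (ε/4) X / q`
  have h5 : 1 ≤ ε / 4 * (X / q) := by
    have h6 : q ≤ Real.sqrt X := by
      rw [← Real.log_le_log_iff hq0 (Real.sqrt_pos.2 (by linarith)), Real.log_sqrt (by linarith)]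
      calc Real.log q ≤ c₀ / 2 * Real.log X := hjm
        _ ≤ Real.log X / 2 := by nlinarith
    have h7 : 4 / ε ≤ Real.sqrt X := by
      apply Real.le_sqrt_of_sq_le hX3
    have h8 : Real.sqrt X * Real.sqrt X = X := Real.mul_self_sqrt (by linarith)
    rw [mul_div_assoc', le_div_iff₀ hq0, one_mul]
    have h9 : 4 ≤ ε * Real.sqrt X := by
      rw [div_le_iff₀ hε] at h7; linarith
    have h10 : 0 ≤ Real.sqrt X := Real.sqrt_nonneg _
    calc q ≤ Real.sqrt X := h6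
      _ = 1 * Real.sqrt X := by ring
      _ ≤ (ε / 4 * Real.sqrt X) * Real.sqrt X := by
          apply mul_le_mul_of_nonneg_right _ h10
          linarith
      _ = ε / 4 * X := by rw [mul_assoc, h8]
  have hY : 0 < X / q := by positivity
  have h6 : X / 2 ^ n / q ≤ ε / 4 * (X / q) := by
    have : X / 2 ^ n / q = 1 / 2 ^ n * (X / q) := by field_simp
    rw [this]
    exact mul_le_mul_of_nonneg_right hn' hY.le
  have h7 : l * (X / 2 ^ n / q) ≤ X / 2 ^ n / q :=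
    mul_le_of_le_one_left (by positivity) hl1
  have h7' : 0 ≤ l * (X / 2 ^ n / q) := by positivity
  have h8 : l * ((X - X / 2 ^ n) / q) = l * (X / q) - l * (X / 2 ^ n / q) := by ring
  have h9 : ε / 4 * ((X - X / 2 ^ n) / q) ≤ ε / 4 * (X / q) := by
    apply mul_le_mul_of_nonneg_left _ (by positivity)
    apply div_le_div_of_nonneg_right _ hq0.le
    have : 0 ≤ X / 2 ^ n := by positivity
    linarith
  have h10 : (0 : ℝ) ≤ (wc S 1 (X / 2 ^ n) (2 ^ j * 3 ^ m) a).card := Nat.cast_nonneg _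
  rw [h2]
  rw [h8, abs_le] at h1
  rw [abs_le]
  constructor
  · linarith [h1.1]
  · linarith [h1.2]

end Pool.Agent.H319R3.LV
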